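import Pool.Agent.Helper10.RC.Basic

/-!
# MP_b55b7c_an: comparison of projections in a finite von Neumann algebra
-/

open scoped ENNReal NNReal InnerProductSpace ComplexOrder
open Filter Topology

attribute [-instance] CStarMatrix.instAlgebra CStarMatrix.instModule CStarMatrix.instSMul
  CStarMatrix.instMulAction CStarMatrix.instDistribMulAction

set_option linter.unusedSectionVars false

noncomputable section
namespace RC
universe u

section
variable {H : Type u} [NormedAddCommGroup H] [InnerProductSpace ℂ H] [CompleteSpace H]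

theorem tr_add (ξ : H) (x y : H →L[ℂ] H) : tr ξ (x + y) = tr ξ x + tr ξ y := by
  unfold tr
  rw [ContinuousLinearMap.add_apply, inner_add_right, Complex.add_re]

theorem tr_proj (ξ : H) (p : H →L[ℂ] H) (hp : IsStarProjection p) : tr ξ p = ‖p ξ‖ ^ 2 := by
  unfold tr
  have h1 : p = star p * p := by
    rw [hp.isSelfAdjoint.star_eq, hp.isIdempotentElem.eq]
  have h2 : ⟪ξ, p ξ⟫_ℂ = ⟪p ξ, p ξ⟫_ℂ := by
    conv_lhs => rw [h1, ContinuousLinearMap.mul_apply, ContinuousLinearMap.star_eq_adjoint,
      ContinuousLinearMap.adjoint_inner_right]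
  rw [h2, inner_self_eq_norm_sq_to_K]
  norm_cast

theorem cent_mul {S : Set (H →L[ℂ] H)} {x y : H →L[ℂ] H} (hx : x ∈ S.centralizer)
    (hy : y ∈ S.centralizer) : x * y ∈ S.centralizer := Set.mul_mem_centralizer hx hy

theorem cent_sub {S : Set (H →L[ℂ] H)} {x y : H →L[ℂ] H} (hx : x ∈ S.centralizer)
    (hy : y ∈ S.centralizer) : x - y ∈ S.centralizer := by
  intro s hs
  rw [mul_sub, sub_mul, hx s hs, hy s hs]

end

theorem cmpP (h1 : ExhP.{u}) (h2 : CsupP.{u}) : CmpP.{u} := by
  intro H _ _ _ S ξ hF p hp q hq hpp hqq hz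
  obtain ⟨v, hv, hve, hqv, hvp, hx⟩ := h1 H S ξ hF p hp q hq hpp hqq
  have hsv : star v ∈ S.centralizer := Set.star_mem_centralizer' (fun a ha => hF.star a ha) hv
  have hec : star v * v ∈ S.centralizer := cent_mul hsv hv
  have hfc : v * star v ∈ S.centralizer := cent_mul hv hsv
  have hep : star v * v * p = star v * v := by rw [mul_assoc, hvp]
  have hpe : p * (star v * v) = star v * v := by
    have := congrArg star hep
    rwa [star_mul, hve.isSelfAdjoint.star_eq, hpp.isSelfAdjoint.star_eq] at this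
  have hp' : IsStarProjection (p - star v * v) := by
    constructor
    · show (p - star v * v) * (p - star v * v) = p - star v * v
      rw [mul_sub, sub_mul, sub_mul, hpp.isIdempotentElem.eq, hve.isIdempotentElem.eq, hpe, hep]
      abel
    · exact hpp.isSelfAdjoint.sub hve.isSelfAdjoint
  have hp'c : p - star v * v ∈ S.centralizer := cent_sub hp hec
  have hq'c : q - v * star v ∈ S.centralizer := cent_sub hq hfc
  obtain ⟨z, hzz, hzp, hzq⟩ := h2 H S hF.star _ hp'c hp'
  have hq'z := hzq _ hq'c hx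
  have hcp := hz z hzz
  have e1 : z * q = z * v * star v := by
    have h5 : z * (q - v * star v) = 0 := by rw [hzz.2.2 _ hq'c, hq'z]
    rw [mul_sub, sub_eq_zero] at h5
    rw [h5, mul_assoc]
  have e2 : tr ξ (z * v * star v) = tr ξ (z * (star v * v)) := by
    have h6 := hF.trace _ (cent_mul hzz.1 hv) _ hsv
    have h7 : star v * (z * v) = z * (star v * v) := by
      rw [← mul_assoc, ← hzz.2.2 _ hsv, mul_assoc]
    unfold tr
    rw [← h7, ContinuousLinearMap.mul_apply (z * v), ContinuousLinearMap.mul_apply (star v), h6]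
  have e3 : z * p = (p - star v * v) + z * (star v * v) := by
    conv_rhs => rw [← hzp]
    rw [← mul_add]
    congr 1
    abel
  rw [e1, e2, e3, tr_add, tr_proj ξ _ hp'] at hcp
  have h8 : ‖(p - star v * v) ξ‖ = 0 := by
    have : ‖(p - star v * v) ξ‖ ^ 2 ≤ 0 := by linarith
    nlinarith [norm_nonneg ((p - star v * v) ξ)]
  have h9 := hF.sep _ hp'c (norm_eq_zero.1 h8)
  exact ⟨v, hv, (sub_eq_zero.1 h9).symm, hqv⟩

end RC
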