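import Pool.Agent.Helper10.RC.Basic

/-!
# MP_b55b7c_an: Cuntz subequivalence, transitivity, cut-downs and direct sums
-/

open scoped ENNReal NNReal InnerProductSpace ComplexOrder
open Filter Topology

attribute [-instance] CStarMatrix.instAlgebra CStarMatrix.instModule CStarMatrix.instSMul
  CStarMatrix.instMulAction CStarMatrix.instDistribMulAction

set_option linter.unusedSectionVars false

noncomputable section
namespace RC
universe u

theorem cuTransP : CuTransP.{u} := by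
  intro A _ _ _ ι κ μ _ _ _ _ _ _ a b c hab hbc ε hε
  obtain ⟨v, hv⟩ := hab (ε / 2) (by positivity)
  obtain ⟨w, hw⟩ := hbc (ε / (2 * (‖v‖ ^ 2 + 1))) (by positivity)
  refine ⟨v * w, ?_⟩
  have h1 : v * w * c * (v * w).conjTranspose - a =
      v * (w * c * w.conjTranspose - b) * v.conjTranspose + (v * b * v.conjTranspose - a) := by
    rw [cm_mul_sub, cm_sub_mul, cm_conj_mul]
    simp only [cm_assoc]
    abel
  rw [h1]
  have h2 := cm_norm_conj_le v (w * c * w.conjTranspose - b)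
  have h3 : ‖v‖ ^ 2 * ‖w * c * w.conjTranspose - b‖ ≤ ε / 2 := by
    have h4 : ‖v‖ ^ 2 * ‖w * c * w.conjTranspose - b‖ ≤
        (‖v‖ ^ 2 + 1) * (ε / (2 * (‖v‖ ^ 2 + 1))) :=
      mul_le_mul (by linarith) hw.le (norm_nonneg _) (by positivity)
    have h5 : (‖v‖ ^ 2 + 1) * (ε / (2 * (‖v‖ ^ 2 + 1))) = ε / 2 := by
      have : ‖v‖ ^ 2 + 1 ≠ 0 := by positivity
      field_simp
    linarith
  have h6 := norm_add_le (v * (w * c * w.conjTranspose - b) * v.conjTranspose)
    (v * b * v.conjTranspose - a)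
  linarith

theorem cuOfCutP : CuOfCutP.{u} := by
  intro A _ _ _ ι κ _ _ _ _ a b ha h ε hε
  obtain ⟨v, hv⟩ := h (ε / 2) (by positivity) (ε / 2) (by positivity)
  refine ⟨v, ?_⟩
  have h1 := norm_sub_cut_le ha (show (0 : ℝ) ≤ ε / 2 by positivity)
  have h2 : v * b * v.conjTranspose - a =
      (v * b * v.conjTranspose - cut a (ε / 2)) - (a - cut a (ε / 2)) := by abel
  rw [h2]
  have h3 := norm_sub_le (v * b * v.conjTranspose - cut a (ε / 2)) (a - cut a (ε / 2))
  linarith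

section

variable {A : Type u} [CStarAlgebra A] [PartialOrder A] [StarOrderedRing A]
variable {ι κ ι' κ' : Type} [Fintype ι] [DecidableEq ι] [Fintype κ] [DecidableEq κ]
  [Fintype ι'] [DecidableEq ι'] [Fintype κ'] [DecidableEq κ']

/-- first inclusion -/
def inP (A : Type u) [CStarAlgebra A] (ι ι' : Type) [DecidableEq ι] :
    CStarMatrix (ι ⊕ ι') ι A :=
  CStarMatrix.ofMatrix (Matrix.fromRows 1 0)

/-- second inclusion -/
def inQ (A : Type u) [CStarAlgebra A] (ι ι' : Type) [DecidableEq ι'] :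
    CStarMatrix (ι ⊕ ι') ι' A :=
  CStarMatrix.ofMatrix (Matrix.fromRows 0 1)

/-- rectangular direct sum -/
def rsum (v : CStarMatrix ι κ A) (w : CStarMatrix ι' κ' A) : CStarMatrix (ι ⊕ ι') (κ ⊕ κ') A :=
  CStarMatrix.ofMatrix (Matrix.fromBlocks v 0 0 w)

theorem dsum_eq_rsum (x : CStarMatrix ι ι A) (y : CStarMatrix ι' ι' A) :
    dsum x y = rsum x y := rfl

theorem rsum_mul {μ μ' : Type} [Fintype μ] [Fintype μ'] (v : CStarMatrix ι κ A)
    (w : CStarMatrix ι' κ' A) (x : CStarMatrix κ μ A) (y : CStarMatrix κ' μ' A) :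
    rsum v w * rsum x y = rsum (v * x) (w * y) := by
  have h := Matrix.fromBlocks_multiply (CStarMatrix.ofMatrix.symm v) 0 0
    (CStarMatrix.ofMatrix.symm w) (CStarMatrix.ofMatrix.symm x) 0 0 (CStarMatrix.ofMatrix.symm y)
  simp only [Matrix.mul_zero, Matrix.zero_mul, add_zero, zero_add] at h
  exact h

theorem rsum_conj (v : CStarMatrix ι κ A) (w : CStarMatrix ι' κ' A) :
    (rsum v w).conjTranspose = rsum v.conjTranspose w.conjTranspose := by
  have h := Matrix.fromBlocks_conjTranspose (CStarMatrix.ofMatrix.symm v)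
    (0 : Matrix ι κ' A) (0 : Matrix ι' κ A) (CStarMatrix.ofMatrix.symm w)
  simp only [Matrix.conjTranspose_zero] at h
  exact h

theorem dsum_sub (x x' : CStarMatrix ι ι A) (y y' : CStarMatrix ι' ι' A) :
    dsum x y - dsum x' y' = dsum (x - x') (y - y') := by
  ext i j
  rcases i with i | i <;> rcases j with j | j <;>
    simp [dsum]

theorem dsum_eq (x : CStarMatrix ι ι A) (y : CStarMatrix ι' ι' A) :
    dsum x y = inP A ι ι' * x * (inP A ι ι').conjTranspose +
      inQ A ι ι' * y * (inQ A ι ι').conjTranspose := by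
  have h : Matrix.fromBlocks (CStarMatrix.ofMatrix.symm x) 0 0 (CStarMatrix.ofMatrix.symm y) =
      (Matrix.fromRows (1 : Matrix ι ι A) (0 : Matrix ι' ι A)) * (CStarMatrix.ofMatrix.symm x) *
        (Matrix.fromRows (1 : Matrix ι ι A) (0 : Matrix ι' ι A)).conjTranspose +
      (Matrix.fromRows (0 : Matrix ι ι' A) (1 : Matrix ι' ι' A)) * (CStarMatrix.ofMatrix.symm y) *
        (Matrix.fromRows (0 : Matrix ι ι' A) (1 : Matrix ι' ι' A)).conjTranspose := by
    have e1 : Matrix.fromRows (1 : Matrix ι ι A) (0 : Matrix ι' ι A) *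
        (CStarMatrix.ofMatrix.symm x) = Matrix.fromRows (CStarMatrix.ofMatrix.symm x) 0 := by
      rw [Matrix.fromRows_mul, Matrix.one_mul, Matrix.zero_mul]
    have e2 : Matrix.fromRows (0 : Matrix ι ι' A) (1 : Matrix ι' ι' A) *
        (CStarMatrix.ofMatrix.symm y) = Matrix.fromRows 0 (CStarMatrix.ofMatrix.symm y) := by
      rw [Matrix.fromRows_mul, Matrix.one_mul, Matrix.zero_mul]
    rw [e1, e2, Matrix.conjTranspose_fromRows_eq_fromCols_conjTranspose,
      Matrix.conjTranspose_fromRows_eq_fromCols_conjTranspose, Matrix.fromRows_mul_fromCols,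
      Matrix.fromRows_mul_fromCols, Matrix.fromBlocks_add]
    simp
  exact h

/-- constant for the norm of a direct sum -/
theorem dsum_norm_le (x : CStarMatrix ι ι A) (y : CStarMatrix ι' ι' A) :
    ‖dsum x y‖ ≤ ‖inP A ι ι'‖ ^ 2 * ‖x‖ + ‖inQ A ι ι'‖ ^ 2 * ‖y‖ := by
  rw [dsum_eq]
  exact (norm_add_le _ _).trans (add_le_add (cm_norm_conj_le _ _) (cm_norm_conj_le _ _))

end

theorem cuDsumP : CuDsumP.{u} := by
  intro A _ _ _ ι κ ι' κ' _ _ _ _ _ _ _ _ a b a' b' h h' ε hε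
  obtain ⟨v, hv⟩ := h (ε / (2 * (‖inP A ι ι'‖ ^ 2 + 1))) (by positivity)
  obtain ⟨w, hw⟩ := h' (ε / (2 * (‖inQ A ι ι'‖ ^ 2 + 1))) (by positivity)
  refine ⟨rsum v w, ?_⟩
  have h1 : rsum v w * dsum b b' * (rsum v w).conjTranspose - dsum a a' =
      dsum (v * b * v.conjTranspose - a) (w * b' * w.conjTranspose - a') := by
    rw [← dsum_sub, dsum_eq_rsum, rsum_conj, rsum_mul, rsum_mul]
    rfl
  rw [h1]
  refine (dsum_norm_le _ _).trans_lt ?_
  have e1 : ‖inP A ι ι'‖ ^ 2 * ‖v * b * v.conjTranspose - a‖ < ε / 2 := by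
    have h5 : (‖inP A ι ι'‖ ^ 2 + 1) * (ε / (2 * (‖inP A ι ι'‖ ^ 2 + 1))) = ε / 2 := by
      have : ‖inP A ι ι'‖ ^ 2 + 1 ≠ 0 := by positivity
      field_simp
    calc _ ≤ (‖inP A ι ι'‖ ^ 2 + 1) * ‖v * b * v.conjTranspose - a‖ := by
          apply mul_le_mul_of_nonneg_right _ (norm_nonneg _)
          linarith
      _ < (‖inP A ι ι'‖ ^ 2 + 1) * (ε / (2 * (‖inP A ι ι'‖ ^ 2 + 1))) :=
          mul_lt_mul_of_pos_left hv (by positivity)
      _ = _ := h5
  have e2 : ‖inQ A ι ι'‖ ^ 2 * ‖w * b' * w.conjTranspose - a'‖ < ε / 2 := by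
    have h5 : (‖inQ A ι ι'‖ ^ 2 + 1) * (ε / (2 * (‖inQ A ι ι'‖ ^ 2 + 1))) = ε / 2 := by
      have : ‖inQ A ι ι'‖ ^ 2 + 1 ≠ 0 := by positivity
      field_simp
    calc _ ≤ (‖inQ A ι ι'‖ ^ 2 + 1) * ‖w * b' * w.conjTranspose - a'‖ := by
          apply mul_le_mul_of_nonneg_right _ (norm_nonneg _)
          linarith
      _ < (‖inQ A ι ι'‖ ^ 2 + 1) * (ε / (2 * (‖inQ A ι ι'‖ ^ 2 + 1))) :=
          mul_lt_mul_of_pos_left hw (by positivity)
      _ = _ := h5
  linarith

end RC
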