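import Pool.Agent.Helper10.RC.Basic

/-!
# MP_b55b7c_an: the quasitrace of a tracial state
-/

open scoped ENNReal NNReal InnerProductSpace ComplexOrder
open Filter Topology

attribute [-instance] CStarMatrix.instAlgebra CStarMatrix.instModule CStarMatrix.instSMul
  CStarMatrix.instMulAction CStarMatrix.instDistribMulAction

set_option linter.unusedSectionVars false

noncomputable section
namespace RC
universe u

theorem mul_conj_diag {A : Type u} [CStarAlgebra A] {ι κ : Type} [Fintype κ]
    (x : CStarMatrix ι κ A) (i : ι) :
    (x * x.conjTranspose) i i = ∑ k, x i k * star (x i k) := rfl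

theorem conj_mul_diag {A : Type u} [CStarAlgebra A] {ι κ : Type} [Fintype ι]
    (x : CStarMatrix ι κ A) (k : κ) :
    (x.conjTranspose * x) k k = ∑ i, star (x i k) * x i k := rfl

theorem qOfTP : QOfTP.{u} := by
  intro A _ _ _ φ
  refine ⟨{ τ := fun ι _ _ a => ∑ i, (φ.φ (a i i)).re
            nonneg := ?_
            trace := ?_
            add := ?_
            smul := ?_
            one := ?_ }, ?_⟩
  · intro ι _ _ a ha
    obtain ⟨s, hs⟩ := CStarAlgebra.nonneg_iff_eq_mul_star_self.mp ha
    refine Finset.sum_nonneg fun i _ => ?_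
    have h1 : 0 ≤ a i i := by
      rw [hs, ← cm_star_eq, mul_conj_diag]
      exact Finset.sum_nonneg fun k _ => mul_star_self_nonneg _
    exact (Complex.le_def.1 (φ.nonneg _ h1)).1
  · intro ι κ _ _ _ _ x
    simp only [mul_conj_diag, conj_mul_diag, map_sum, Complex.re_sum]
    rw [Finset.sum_comm]
    refine Finset.sum_congr rfl fun k _ => Finset.sum_congr rfl fun i _ => ?_
    rw [φ.trace]
  · intro ι _ _ a b _ _ _
    rw [← Finset.sum_add_distrib]
    refine Finset.sum_congr rfl fun i _ => ?_
    have : (a + b) i i = a i i + b i i := rfl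
    rw [this, map_add, Complex.add_re]
  · intro ι _ _ c a _ _
    rw [Finset.mul_sum]
    refine Finset.sum_congr rfl fun i _ => ?_
    have : (c • a) i i = c • a i i := rfl
    rw [this, ← Complex.coe_smul, map_smul, smul_eq_mul, Complex.re_ofReal_mul]
  · have : (1 : CStarMatrix Unit Unit A) () () = 1 := rfl
    simp [this, φ.one]
  · intro ι _ _ a
    rfl

end RC
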